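import Pool.Agent.H.MP_b28609_co.GenG
import Pool.Agent.H.MP_b28609_co.Iso

/-!
# MP_b28609_co: `5 γ(G_{m,n}) ≤ (m+2)(n+2)`

One of the five perfect codes `x + 2 y ≡ c` of the plane has at most `(m+2)(n+2)/5` points in the
`(m+2) × (n+2)` rectangle around the grid; points next to the grid are moved into it.
-/

set_option autoImplicit false

namespace PatDom

/-- Moving a coordinate of `0, ..., m + 1` into `0, ..., m - 1`. -/
private def cl (m : ℕ) (hm : 1 ≤ m) (x : ℕ) : Fin m :=
  if h1 : x = 0 then ⟨0, hm⟩ else if h2 : m < x then ⟨m - 1, by omega⟩ else ⟨x - 1, by omega⟩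

private theorem cl_mid (m : ℕ) (hm : 1 ≤ m) (x : ℕ) (h1 : 1 ≤ x) (h2 : x ≤ m) :
    (cl m hm x).val + 1 = x := by
  unfold cl
  rw [dif_neg (by omega), dif_neg (by omega)]
  simp only
  omega

private theorem cl_zero (m : ℕ) (hm : 1 ≤ m) : (cl m hm 0).val = 0 := by
  unfold cl
  rw [dif_pos rfl]

private theorem cl_top (m : ℕ) (hm : 1 ≤ m) : (cl m hm (m + 1)).val + 1 = m := by
  unfold cl
  rw [dif_neg (by omega), dif_pos (by omega)]
  simp only
  omega

theorem dnum_upper (m n : ℕ) (hm : 1 ≤ m) (hn : 1 ≤ n) :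
    5 * dnum (grid m n) ≤ (m + 2) * (n + 2) := by
  classical
  let R : Finset (ℕ × ℕ) := Finset.range (m + 2) ×ˢ Finset.range (n + 2)
  let S : ℕ → Finset (ℕ × ℕ) := fun c => R.filter (fun x => (x.1 + 2 * x.2) % 5 = c)
  have hsum : ∑ c ∈ Finset.range 5, (S c).card = (m + 2) * (n + 2) := by
    have h1 : R.card = ∑ c ∈ Finset.range 5, (R.filter (fun x => (x.1 + 2 * x.2) % 5 = c)).card :=
      Finset.card_eq_sum_card_fiberwise (fun x _ => Finset.mem_coe.2 (Finset.mem_range.2
        (Nat.mod_lt _ (by decide))))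
    rw [← h1, Finset.card_product, Finset.card_range, Finset.card_range]
  obtain ⟨c, hc, hle⟩ : ∃ c ∈ Finset.range 5, 5 * (S c).card ≤ (m + 2) * (n + 2) := by
    by_contra hcon
    push Not at hcon
    have h2 : ∑ c ∈ Finset.range 5, (m + 2) * (n + 2) < ∑ c ∈ Finset.range 5, 5 * (S c).card :=
      Finset.sum_lt_sum_of_nonempty ⟨0, by simp⟩ hcon
    have h3 : ∑ c ∈ Finset.range 5, 5 * (S c).card = 5 * ((m + 2) * (n + 2)) := by
      rw [← hsum, Finset.mul_sum]
    rw [h3, Finset.sum_const, Finset.card_range] at h2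
    simp at h2
  have hc5 : c < 5 := Finset.mem_range.1 hc
  let D : Finset (Fin m × Fin n) := (S c).image fun x => (cl m hm x.1, cl n hn x.2)
  have hcard : D.card ≤ (S c).card := Finset.card_image_le
  have hdom : Dom (grid m n) D := by
    rintro ⟨i, j⟩ hv
    have hi := i.isLt
    have hj := j.isLt
    -- the point of the code next to `(i + 1, j + 1)`
    have key : ∃ a b : ℕ, (a + 2 * b) % 5 = c ∧ a ≤ m + 1 ∧ b ≤ n + 1 ∧
        ((a = i.val + 1 ∧ b = j.val + 1) ∨ (a = i.val + 2 ∧ b = j.val + 1) ∨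
        (a = i.val ∧ b = j.val + 1) ∨ (a = i.val + 1 ∧ b = j.val + 2) ∨
        (a = i.val + 1 ∧ b = j.val)) := by
      have h5 : ((i.val + 1) + 2 * (j.val + 1)) % 5 = c ∨ ((i.val + 2) + 2 * (j.val + 1)) % 5 = c ∨
          (i.val + 2 * (j.val + 1)) % 5 = c ∨ ((i.val + 1) + 2 * (j.val + 2)) % 5 = c ∨
          ((i.val + 1) + 2 * j.val) % 5 = c := by omega
      rcases h5 with h | h | h | h | h
      · exact ⟨_, _, h, by omega, by omega, Or.inl ⟨rfl, rfl⟩⟩
      · exact ⟨_, _, h, by omega, by omega, Or.inr (Or.inl ⟨rfl, rfl⟩)⟩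
      · exact ⟨_, _, h, by omega, by omega, Or.inr (Or.inr (Or.inl ⟨rfl, rfl⟩))⟩
      · exact ⟨_, _, h, by omega, by omega, Or.inr (Or.inr (Or.inr (Or.inl ⟨rfl, rfl⟩)))⟩
      · exact ⟨_, _, h, by omega, by omega, Or.inr (Or.inr (Or.inr (Or.inr ⟨rfl, rfl⟩)))⟩
    obtain ⟨a, b, hab, ha, hb, hcase⟩ := key
    have hmem : (cl m hm a, cl n hn b) ∈ D := by
      refine Finset.mem_image.2 ⟨(a, b), ?_, rfl⟩
      refine Finset.mem_filter.2 ⟨Finset.mem_product.2 ⟨?_, ?_⟩, hab⟩
      · exact Finset.mem_range.2 (by omega)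
      · exact Finset.mem_range.2 (by omega)
    have hne : (cl m hm a, cl n hn b) ≠ (i, j) := fun h => hv (h ▸ hmem)
    refine ⟨_, hmem, ?_⟩
    rw [grid_adj]
    simp only
    rcases hcase with ⟨rfl, rfl⟩ | ⟨rfl, rfl⟩ | ⟨rfl, rfl⟩ | ⟨rfl, rfl⟩ | ⟨rfl, rfl⟩
    · exfalso
      apply hne
      have e1 := cl_mid m hm (i.val + 1) (by omega) (by omega)
      have e2 := cl_mid n hn (j.val + 1) (by omega) (by omega)
      exact Prod.ext (Fin.ext (by simp only; omega)) (Fin.ext (by simp only; omega))
    · have e2 := cl_mid n hn (j.val + 1) (by omega) (by omega)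
      by_cases hcs : i.val + 2 ≤ m
      · have e1 := cl_mid m hm (i.val + 2) (by omega) hcs
        left
        exact ⟨by omega, Fin.ext (by omega)⟩
      · exfalso
        have e0 : i.val + 2 = m + 1 := by omega
        apply hne
        rw [e0]
        have e1 := cl_top m hm
        exact Prod.ext (Fin.ext (by simp only; omega)) (Fin.ext (by simp only; omega))
    · have e2 := cl_mid n hn (j.val + 1) (by omega) (by omega)
      by_cases hcs : 1 ≤ i.val
      · have e1 := cl_mid m hm i.val hcs (by omega)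
        left
        exact ⟨by omega, Fin.ext (by omega)⟩
      · exfalso
        have e0 : i.val = 0 := by omega
        apply hne
        rw [e0]
        have e1 := cl_zero m hm
        exact Prod.ext (Fin.ext (by simp only; omega)) (Fin.ext (by simp only; omega))
    · have e1 := cl_mid m hm (i.val + 1) (by omega) (by omega)
      by_cases hcs : j.val + 2 ≤ n
      · have e2 := cl_mid n hn (j.val + 2) (by omega) hcs
        right
        exact ⟨by omega, Fin.ext (by omega)⟩
      · exfalso
        have e0 : j.val + 2 = n + 1 := by omega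
        apply hne
        rw [e0]
        have e2 := cl_top n hn
        exact Prod.ext (Fin.ext (by simp only; omega)) (Fin.ext (by simp only; omega))
    · have e1 := cl_mid m hm (i.val + 1) (by omega) (by omega)
      by_cases hcs : 1 ≤ j.val
      · have e2 := cl_mid n hn j.val hcs (by omega)
        right
        exact ⟨by omega, Fin.ext (by omega)⟩
      · exfalso
        have e0 : j.val = 0 := by omega
        apply hne
        rw [e0]
        have e2 := cl_zero n hn
        exact Prod.ext (Fin.ext (by simp only; omega)) (Fin.ext (by simp only; omega))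
  have := dnum_le (grid m n) D hdom
  omega

/-- The upper bound for the patrolling domination number. -/
theorem pnum_upper (m n : ℕ) (hm : 1 ≤ m) (hn : 2 ≤ n) :
    5 * pnum (grid m n) ≤ (m + 2) * (n + 3) := by
  have h1 : pnum (grid m n) ≤ dnum (grid m (n + 1)) := (gen_main (SimpleGraph.pathGraph m) n hn).2.2
  have h2 : 5 * dnum (grid m (n + 1)) ≤ (m + 2) * (n + 3) := dnum_upper m (n + 1) hm (by omega)
  omega

end PatDom
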